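import Pool.Agent.L0h75.EV.Hc

/-!
# The central values of the twists by even discriminants
-/

set_option autoImplicit false
set_option linter.unusedSectionVars false

open Filter
open scoped Topology PeriodPair

namespace Pool.Agent.L0h75.EV

open Pool.Agent.Y698 Pool.Agent.Y698.SG Pool.Agent.L0h4.TW
open H667R3 Pool.Agent.W192.HK Pool.Agent.TH936.CM Pool.Agent.TH936.PU
open Pool.Agent.W192.CM (nu)

/-- the central value of a twist, any conductor prime to seven -/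
theorem val_gen' {N : ℕ} (hNe : (N : RR) ≠ 0) (hNc : IsCoprime fR (N : RR)) (hN1 : N ≠ 1)
    {X : Ideal RR → ℂ} (hX : HC 0 (sp (N : RR)) X)
    {φ : ℤ → ℂ} (hφX : ∀ g : RR, (starRingEnd ℂ) (X (sp g)) = φ (nR g)) {k : ℕ} (hk : 0 < k)
    (h7 : φ 7 ^ k = 1) :
    ∃ F : ℂ → ℂ, Differentiable ℂ F ∧
    (∀ z : ℂ, 3 / 2 < z.re → HasSum (fun I : Ideal RR => psi I * X I * (nm I : ℂ) ^ (-z)) (F z)) ∧
    ∀ [Fintype (RR ⧸ sp fR)] (Γ : Type) [LinearOrderedCommGroupWithZero Γ] (v : Valuation ℂ Γ)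
      (L : PeriodPair) (Ω : ℂ), LD L Ω → v al < 1 → ∀ T : ℂ,
      Tendsto (fun δ : ℝ => GG Ω δ 1) (𝓝[>] 0) (𝓝 T) →
      v 2 * v ((starRingEnd ℂ) (F 1) / Ω) * v (N : ℂ) = v (BB L Ω T N φ) := by
  classical
  have hbasic := Pool.Agent.W287.HK.h_basic
  have hcls := Pool.Agent.W571.HK.h_cls hbasic
  have hfp := Pool.Agent.W53.HK.h_fp hbasic hcls
  have hfpr := Pool.Agent.W366.HK.h_fpr hbasic hcls
  have hlat := Pool.Agent.W585.HK.h_lat hbasic
  have hker := Pool.Agent.W692.HK.h_ker hbasic hcls hfpr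
  have hcnt := Pool.Agent.W584.HK.h_cnt hbasic hcls hfpr hlat hker
  have hdec := Pool.Agent.W856.HK.h_dec hbasic
  have hgauss := Pool.Agent.W636.HK.h_gauss hbasic hfp
  have hpois := Pool.Agent.W348.HK.h_pois hbasic
  have htheta := Pool.Agent.TH936.HK.h_theta hbasic hfp hdec hgauss hpois hcnt
  have hafe := Pool.Agent.TH936.HK.h_afe hbasic hfp hcnt hgauss htheta
  have hprod := Pool.Agent.W29.HK.h_prod hbasic hfp
  obtain ⟨F, g1, g2, g3⟩ := val hbasic hfp hcnt hdec hafe hprod qr psi_HC hX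
    ((Ideal.isCoprime_span_singleton_iff _ _).2 hNc)
  refine ⟨F, g1, g2, ?_⟩
  intro _ Γ _ v L Ω h hv T hT
  have hL := h.lat
  have hΩ := hL.ne
  have t2 := v_two_lt hv
  have htop := sp_ne_top hN1
  have f1 := fin_quot hNe
  let _ : Fintype (RR ⧸ sp (N : RR)) := Fintype.ofFinite _
  have h4 := g3 htop L Ω hL
  rw [nu_eq] at h4
  have e1 : ∀ u, HH L Ω fR (ee psi) u = HH L Ω fR e7 u := by
    intro u
    unfold HH
    simp only [ee_psi]
  simp only [e1] at h4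
  have hxo := xb_xo hfp qr hX htop
  have hsum : ∑ x : RR ⧸ sp (N : RR), xb X x.out * HH L Ω fR e7 (Ω * x.out / ((N : RR) : ℂ)) =
      BB L Ω T N φ := by
    rw [BB_eq]
    have h5 : ∀ x : RR ⧸ sp (N : RR), xb X x.out * HH L Ω fR e7 (Ω * x.out / ((N : RR) : ℂ)) =
        φ (nR x.out) * Gv L Ω T (Ω * x.out / ((N : RR) : ℂ)) - xb X x.out * T := by
      intro x
      have h6 : xb X x.out = φ (nR x.out) := hφX x.out
      by_cases hx : x.out ∈ sp (N : RR)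
      · have h7 := hxo.zero _ hx
        rw [← h6, h7]
        ring
      · have h7 : Ω * x.out / ((N : RR) : ℂ) ∉ L.lattice := by rwa [div_mem_iff hL hNe]
        unfold Gv
        rw [if_neg h7, ← h6]
        ring
    rw [Finset.sum_congr rfl (fun x _ => h5 x), Finset.sum_sub_distrib, ← Finset.sum_mul,
      hxo.sum, zero_mul, sub_zero]
  rw [hsum] at h4
  have h5 := congrArg v h4
  have hNc0 : v (N : ℂ) ≠ 0 := by
    rw [Valuation.ne_zero_iff]
    have h1 := coe_ne hNe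
    push_cast at h1
    exact h1
  have e2 : v (xb X fR) = 1 := by
    have h8 : xb X fR = φ 7 := by
      have := hφX fR
      rw [nR_fR] at this
      exact this
    rw [h8]
    exact val_root v hk h7
  have e3 : v (e7 (N : RR)) = 1 := by
    refine val_root v two_pos (e7_sq ?_)
    exact not_mem_of_cop hNc
  rw [map_mul, map_mul, map_mul, map_div₀, map_mul, ee_psi, map_mul v (e7 (N : RR)), e3, e2,
    v_fR hv, one_mul, mul_one, mul_one] at h5
  push_cast at h5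
  rw [map_div₀, ← mul_div_assoc, h5]
  have h10 : v Ω ≠ 0 := (Valuation.ne_zero_iff v).2 hΩ
  field_simp

/-- **the central values of the twists by even discriminants** -/
theorem val_even {ψ : ℤ → ℂ} {k : ℕ} (hψ : Tp ψ k) {S : Finset ℕ} (hS : ∀ q ∈ S, Od q) :
    ∃ F : ℂ → ℂ, Differentiable ℂ F ∧
    (∀ z : ℂ, 3 / 2 < z.re → HasProd (fun p : Nat.Primes =>
      (1 - bc p * ((ψ ((p : ℕ) : ℤ) * ∏ q ∈ S, qch q (p : ℕ)) * ((p : ℕ) : ℂ) ^ (-z)) +
      ec p * ((ψ ((p : ℕ) : ℤ) * ∏ q ∈ S, qch q (p : ℕ)) * ((p : ℕ) : ℂ) ^ (-z)) ^ 2)⁻¹) (F z)) ∧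
    ∀ (Γ : Type) [LinearOrderedCommGroupWithZero Γ] (v : Valuation ℂ Γ) (L : PeriodPair) (Ω : ℂ),
      LD L Ω → v al < 1 →
      v 2 * v ((starRingEnd ℂ) (F 1) / Ω) * v (2 ^ k) =
        v (Bv Ω (fR * ((2 ^ k * ∏ q ∈ S, q : ℕ) : RR))
          (fun m => e7 m * (ψ (nR m) * ∏ q ∈ S, qch q (nR m)))) := by
  classical
  have hk0 : k ≠ 0 := by have := hψ.pos; omega
  have hcop2 : ∀ q ∈ S, Nat.Coprime q (2 ^ k) := by
    intro q hq
    refine Nat.Coprime.pow_right _ ?_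
    have := (hS q hq).odd
    exact Nat.Coprime.symm (Nat.coprime_two_left.2 (Nat.odd_iff.2 this))
  have hHC := prod_HCX hψ.hc S (fun q hq => ⟨hS q hq, hcop2 q hq⟩)
  rw [mul_comm (∏ q ∈ S, q) (2 ^ k)] at hHC
  set N : ℕ := 2 ^ k * ∏ q ∈ S, q with hN
  have hgn := gn_prod hS
  have hNe : (N : RR) ≠ 0 := by
    rw [hN]
    rw [Nat.cast_mul]
    exact mul_ne_zero (two_pow_ne k) hgn.ne
  have hNc : IsCoprime fR (N : RR) := by
    rw [hN, Nat.cast_mul]
    refine IsCoprime.mul_right ?_ hgn.cop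
    have h1 : IsCoprime ((7 : ℕ) : RR) ((2 ^ k : ℕ) : RR) :=
      cop_cast (Nat.Coprime.pow_right _ (by norm_num))
    have h2 : ((7 : ℕ) : RR) = fR * (-fR) := by
      have := fR_mul
      push_cast
      linear_combination this
    rw [h2] at h1
    exact h1.of_mul_left_left
  have hN1 : N ≠ 1 := by
    intro h1
    rw [hN] at h1
    have h2 : 2 ∣ 1 := by
      rw [← h1]
      exact (dvd_pow_self 2 hk0).mul_right _
    omega
  set φ : ℤ → ℂ := fun m => ψ m * ∏ q ∈ S, qch q m with hφ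
  have h7 : φ 7 ^ 2 = 1 := by
    rw [hφ]
    show (ψ 7 * ∏ q ∈ S, qch q 7) ^ 2 = 1
    rw [mul_pow, hψ.sq, one_mul]
    exact qprod_sq (fun q hq => (hS q hq).pr) fun q hq => (hS q hq).not_seven
  obtain ⟨F, g1, g2, g3⟩ := val_gen' hNe hNc hN1 hHC (φ := φ)
    (by
      intro g
      rw [map_mul, map_prod, hψ.conj, nI_sp']
      rw [hφ]
      show _ = ψ (nR g) * _
      congr 1
      refine Finset.prod_congr rfl fun q _ => ?_
      rw [qch_conj]) two_pos h7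
  refine ⟨F, g1, fun z hz => ?_, fun Γ _ v L Ω hL hv => ?_⟩
  · refine prod_gen (f := fun n => ψ (n : ℤ) * ∏ q ∈ S, qch q (n : ℤ)) ?_ ?_ (g2 z hz)
    · simp [qch_one, hψ.one]
    · intro m n
      push_cast
      rw [hψ.mul]
      simp only [qch_mul]
      rw [Finset.prod_mul_distrib]
      ring
  · have t2 := v_two_lt hv
    have := fin_quot fR_ne
    let _ : Fintype (RR ⧸ sp fR) := Fintype.ofFinite _
    obtain ⟨F0, -, -, k3⟩ := val_one
    have hT := k3 L Ω hL.lat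
    have h1 := g3 Γ v L Ω hL hv _ hT
    have hmulφ : ∀ x : RR, φ (nR (fR * x)) = φ 7 * φ (nR x) := by
      intro x
      rw [hφ]
      show ψ _ * ∏ q ∈ S, qch q _ = (ψ 7 * ∏ q ∈ S, qch q 7) * (ψ _ * ∏ q ∈ S, qch q _)
      rw [nR_mul, nR_fR, hψ.mul]
      simp only [qch_mul]
      rw [Finset.prod_mul_distrib]
      ring
    have hperφ : Pe (N : RR) (fun x => φ (nR x)) := by
      intro x y hxy
      have h2 : (N : ℤ) ∣ nR x - nR y := by
        rw [Ideal.mem_span_singleton'] at hxy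
        obtain ⟨c, hc⟩ := hxy
        have h1 : x = y + c * (N : RR) := by linear_combination -hc
        have h2 : cX x = cX y + cX c * N ∧ cY x = cY y + cY c * N := by
          apply cXY_of
          rw [h1]
          push_cast
          rw [co c, co y]
          ring
        unfold nR
        rw [h2.1, h2.2]
        exact ⟨2 * cX y * cX c + cX c ^ 2 * N + cX y * cY c + cX c * cY y + cX c * cY c * N +
          4 * cY y * cY c + 2 * cY c ^ 2 * N, by ring⟩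
      have h3 : Per N φ := by
        refine Per.mul (hψ.per.mono (Dvd.intro _ rfl)) ?_
        exact (Per.prod fun p _ => qch_per p).mono (Dvd.intro_left _ rfl)
      exact h3 _ _ h2
    rw [BB_Bg _ rfl φ (fun x => φ (nR x)) (fun x => rfl)] at h1
    have h2 := Bg_Bv hL.lat hT hNe hNc hperφ hmulφ
    have h3 := congrArg v h2
    have e3 : v (e7 (N : RR)) = 1 := val_root v two_pos (e7_sq (not_mem_of_cop hNc))
    rw [map_mul, map_mul, e3, val_root v two_pos h7, one_mul, one_mul, ← h1] at h3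
    have e4 : v (N : ℂ) = v (2 ^ k) := by
      rw [hN]
      push_cast
      rw [map_mul]
      have h5 := v_odd (v := v) hgn.odd t2
      push_cast at h5
      rw [h5, mul_one]
    rw [e4] at h3
    exact h3.symm

/-- the twists by `-4 ∏ q` -/
theorem val_c4 {S : Finset ℕ} (hS : ∀ q ∈ S, Od q) :
    ∃ F : ℂ → ℂ, Differentiable ℂ F ∧
    (∀ z : ℂ, 3 / 2 < z.re → HasProd (fun p : Nat.Primes =>
      (1 - bc p * ((c4 ((p : ℕ) : ℤ) * ∏ q ∈ S, qch q (p : ℕ)) * ((p : ℕ) : ℂ) ^ (-z)) +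
      ec p * ((c4 ((p : ℕ) : ℤ) * ∏ q ∈ S, qch q (p : ℕ)) * ((p : ℕ) : ℂ) ^ (-z)) ^ 2)⁻¹) (F z)) ∧
    ∀ (Γ : Type) [LinearOrderedCommGroupWithZero Γ] (v : Valuation ℂ Γ) (L : PeriodPair) (Ω : ℂ),
      LD L Ω → v al < 1 →
      v 2 * v ((starRingEnd ℂ) (F 1) / Ω) * v (2 ^ 2) =
        v (Bv Ω (fR * ((2 ^ 2 * ∏ q ∈ S, q : ℕ) : RR))
          (fun m => e7 m * (c4 (nR m) * ∏ q ∈ S, qch q (nR m)))) := val_even tp_c4 hS

/-- the twists by `8 ∏ q` (even two-part) -/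
theorem val_c8 {S : Finset ℕ} (hS : ∀ q ∈ S, Od q) :
    ∃ F : ℂ → ℂ, Differentiable ℂ F ∧
    (∀ z : ℂ, 3 / 2 < z.re → HasProd (fun p : Nat.Primes =>
      (1 - bc p * ((c8 ((p : ℕ) : ℤ) * ∏ q ∈ S, qch q (p : ℕ)) * ((p : ℕ) : ℂ) ^ (-z)) +
      ec p * ((c8 ((p : ℕ) : ℤ) * ∏ q ∈ S, qch q (p : ℕ)) * ((p : ℕ) : ℂ) ^ (-z)) ^ 2)⁻¹) (F z)) ∧
    ∀ (Γ : Type) [LinearOrderedCommGroupWithZero Γ] (v : Valuation ℂ Γ) (L : PeriodPair) (Ω : ℂ),
      LD L Ω → v al < 1 →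
      v 2 * v ((starRingEnd ℂ) (F 1) / Ω) * v (2 ^ 3) =
        v (Bv Ω (fR * ((2 ^ 3 * ∏ q ∈ S, q : ℕ) : RR))
          (fun m => e7 m * (c8 (nR m) * ∏ q ∈ S, qch q (nR m)))) := val_even tp_c8 hS

/-- the twists by `8 ∏ q` (odd two-part) -/
theorem val_c8' {S : Finset ℕ} (hS : ∀ q ∈ S, Od q) :
    ∃ F : ℂ → ℂ, Differentiable ℂ F ∧
    (∀ z : ℂ, 3 / 2 < z.re → HasProd (fun p : Nat.Primes =>
      (1 - bc p * ((c8' ((p : ℕ) : ℤ) * ∏ q ∈ S, qch q (p : ℕ)) * ((p : ℕ) : ℂ) ^ (-z)) +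
      ec p * ((c8' ((p : ℕ) : ℤ) * ∏ q ∈ S, qch q (p : ℕ)) * ((p : ℕ) : ℂ) ^ (-z)) ^ 2)⁻¹)
      (F z)) ∧
    ∀ (Γ : Type) [LinearOrderedCommGroupWithZero Γ] (v : Valuation ℂ Γ) (L : PeriodPair) (Ω : ℂ),
      LD L Ω → v al < 1 →
      v 2 * v ((starRingEnd ℂ) (F 1) / Ω) * v (2 ^ 3) =
        v (Bv Ω (fR * ((2 ^ 3 * ∏ q ∈ S, q : ℕ) : RR))
          (fun m => e7 m * (c8' (nR m) * ∏ q ∈ S, qch q (nR m)))) := val_even tp_c8' hS

end Pool.Agent.L0h75.EV
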