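import Pool.Agent.L0h75.EV.Cd
import Pool.Agent.L0h75.EV.Val

/-!
# The weighted sums for the even discriminants: splitting off the prime `𝔭`
-/

set_option autoImplicit false
set_option linter.unusedSectionVars false

open Filter
open scoped Topology PeriodPair

namespace Pool.Agent.L0h75.EV

open Pool.Agent.Y698 Pool.Agent.Y698.SG Pool.Agent.L0h4.TW Pool.Agent.L0h23.ED Pool.Agent.L0h1.EV
open H667R3 Pool.Agent.W192.HK Pool.Agent.TH936.CM Pool.Agent.TH936.PU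

/-- the twist of the Eisenstein numbers by `χ` at `𝔭` -/
noncomputable def Gx (k : ℕ) (χ : RR → ℂ) (Ω : ℂ) (z : ℂ) : ℂ :=
  ∑ᶠ a : RR ⧸ sp (aR ^ k), χ a.out * Ev Ω (z + Ω * a.out / ((aR ^ k : RR) : ℂ))

variable {L : PeriodPair} {Ω : ℂ}

/-- the decomposition of a weighted sum -/
theorem Bv_crt (hL : IsLat L RR Ω) {f n : RR} (hf : f ≠ 0) (hn : n ≠ 0) (hc : IsCoprime f n)
    {χ φ : RR → ℂ} (hχ : Pe f χ) (hφ : Pe n φ) (hχm : ∀ x y, χ (x * y) = χ x * χ y)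
    (hφm : ∀ x y, φ (x * y) = φ x * φ y) :
    Bv Ω (f * n) (fun z => χ z * φ z) = χ n * φ f *
      Sv (fun z => ∑ᶠ a : RR ⧸ sp f, χ a.out * Ev Ω (z + Ω * a.out / (f : ℂ))) Ω n φ := by
  have hfn : f * n ≠ 0 := mul_ne_zero hf hn
  have f1 := fin_quot hf
  have f2 := fin_quot hn
  have f3 := fin_quot hfn
  let _ : Fintype (RR ⧸ sp f) := Fintype.ofFinite _
  let _ : Fintype (RR ⧸ sp n) := Fintype.ofFinite _
  let _ : Fintype (RR ⧸ sp (f * n)) := Fintype.ofFinite _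
  have hf' := coe_ne hf
  have hn' := coe_ne hn
  have hp : Pe (f * n) (fun z => χ z * φ z) :=
    Pe.mul (hχ.mono (Dvd.intro _ rfl)) (hφ.mono (Dvd.intro_left _ rfl))
  unfold Sv
  rw [finsum_eq_sum_of_fintype, Bv_eq, sum_rep _ (bij_crt hf hn hc)
    (fun z : RR => (χ z * φ z) * Ev Ω (Ω * z / ((f * n : RR) : ℂ)))
    (fun x y h => Bv_term hL hfn hp h), Fintype.sum_prod_type, Finset.mul_sum]
  refine Finset.sum_congr rfl fun x _ => ?_
  have e0 : (∑ᶠ a : RR ⧸ sp f, χ a.out * Ev Ω (Ω * x.out / (n : ℂ) + Ω * a.out / (f : ℂ))) =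
      ∑ a : RR ⧸ sp f, χ a.out * Ev Ω (Ω * x.out / (n : ℂ) + Ω * a.out / (f : ℂ)) :=
    finsum_eq_sum_of_fintype _
  show _ = χ n * φ f * (φ x.out *
    ∑ᶠ a : RR ⧸ sp f, χ a.out * Ev Ω (Ω * x.out / (n : ℂ) + Ω * a.out / (f : ℂ)))
  rw [e0, Finset.mul_sum, Finset.mul_sum]
  refine Finset.sum_congr rfl fun y _ => ?_
  have e1 : χ (f * x.out + n * y.out) = χ n * χ y.out := by
    rw [← hχm]
    apply hχ
    rw [add_sub_cancel_right, Ideal.mem_span_singleton']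
    exact ⟨x.out, mul_comm _ _⟩
  have e2 : φ (f * x.out + n * y.out) = φ f * φ x.out := by
    rw [← hφm]
    apply hφ
    rw [add_sub_cancel_left, Ideal.mem_span_singleton']
    exact ⟨y.out, mul_comm _ _⟩
  have e3 : Ω * ((f * x.out + n * y.out : RR) : ℂ) / ((f * n : RR) : ℂ) =
      Ω * x.out / (n : ℂ) + Ω * y.out / f := by
    push_cast
    field_simp
  rw [e1, e2, e3]
  ring

lemma cop_ab : IsCoprime aR bN := ⟨1, -1, by unfold bN; ring⟩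

lemma px_aR {x : RR} (h : PX x) : IsCoprime aR x := by
  have h2 := h.odd
  rw [two_ab] at h2
  exact h2.of_mul_left_left

lemma sgz_prod' (S : Finset ℕ) : ∏ q ∈ S, sgz q = 1 ∨ ∏ q ∈ S, sgz q = -1 := by
  classical
  induction S using Finset.induction_on with
  | empty => left; simp
  | insert q S hq ih =>
    rw [Finset.prod_insert hq]
    have h2 : sgz q = 1 ∨ sgz q = -1 := by
      unfold sgz
      split_ifs
      · exact Or.inl rfl
      · exact Or.inr rfl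
    rcases h2 with h2 | h2 <;> rcases ih with h3 | h3 <;> rw [h2, h3] <;> norm_num

section
variable {Q P : Finset ℕ} {ϖ : ℕ → RR}

/-- the product of the prime elements -/
theorem prod_pfx' (h : Dt Q P ϖ) : ∏ i ∈ ix Q P, pfx Q ϖ i =
    ((∏ q ∈ Q ∪ P, sgz q : ℤ) : RR) * ((∏ q ∈ Q ∪ P, q : ℕ) : RR) := by
  rw [Pool.Agent.L0h4.TW.prod_ix h.dis]
  have e1 : ∏ q ∈ Q, pfx Q ϖ (q, false) = ∏ q ∈ Q, (((sgz q : ℤ) : RR) * (q : RR)) :=
    Finset.prod_congr rfl fun q hq => by rw [pfx_Q hq, sg_coe]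
  have e2 : ∏ p ∈ P, (pfx Q ϖ (p, false) * pfx Q ϖ (p, true)) =
      ∏ p ∈ P, (((sgz p : ℤ) : RR) * (p : RR)) := by
    refine Finset.prod_congr rfl fun p hp => ?_
    rw [h.pfx_f hp, h.pfx_t hp, sg_coe]
    have h3 := mul_cj (ϖ p)
    rw [(h.cho p hp).1] at h3
    push_cast at h3
    linear_combination ((sgz p : ℤ) : RR) * h3
  rw [e1, e2, ← Finset.prod_union h.dis, Finset.prod_mul_distrib]
  push_cast
  rfl

lemma fx7 (h : Dt Q P ϖ) : FX (insert (7, false) (ix Q P)) (pf7 Q ϖ) := h.fx7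

/-- **the weighted sum for an even discriminant** -/
theorem v_Bv_even {Γ : Type} [LinearOrderedCommGroupWithZero Γ] (v : Valuation ℂ Γ)
    (hL : IsLat L RR Ω) (h : Dt Q P ϖ) {ψ₀ : ℤ → ℂ} {k : ℕ} {χ ψ : RR → ℂ} (hl : Lc ψ₀ k χ ψ) :
    v (Bv Ω (fR * ((2 ^ k * ∏ q ∈ Q ∪ P, q : ℕ) : RR))
      (fun m => e7 m * (ψ₀ (nR m) * ∏ q ∈ Q ∪ P, qch q (nR m)))) =
    v (Gb (Gx k χ Ω) Ω k ψ (pf7 Q ϖ) (insert (7, false) (ix Q P))) := by
  classical
  set S7 := insert (7, false) (ix Q P) with hS7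
  set f : RR := aR ^ k with hf
  set n : RR := bN ^ k * ∏ i ∈ S7, pf7 Q ϖ i with hn
  have hfx : FX S7 (pf7 Q ϖ) := h.fx7
  have hf0 : f ≠ 0 := pow_ne_zero _ irr_aR.ne_zero
  have hb0 : bN ≠ 0 := by
    rw [bN_eq, neg_ne_zero]
    exact irr_bR.ne_zero
  have hn0 : n ≠ 0 := mul_ne_zero (pow_ne_zero _ hb0) (prod_ne hfx)
  have hcop : IsCoprime f n := by
    refine IsCoprime.mul_right (cop_ab.pow) ?_
    exact IsCoprime.prod_right fun i hi => (px_aR (hfx.pd i hi)).pow_left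
  -- the modulus
  have e1 : fR * ((2 ^ k * ∏ q ∈ Q ∪ P, q : ℕ) : RR) = f * n ∨
      fR * ((2 ^ k * ∏ q ∈ Q ∪ P, q : ℕ) : RR) = -(f * n) := by
    have a1 : ∏ i ∈ S7, pf7 Q ϖ i = -(fR * ∏ i ∈ ix Q P, pfx Q ϖ i) := by
      rw [hS7, Finset.prod_insert h.ix7, pf7_o, Finset.prod_congr rfl (fun i hi => h.pf hi)]
      ring
    have a2 : ((2 ^ k : ℕ) : RR) = (-1) ^ k * (aR ^ k * bN ^ k) := by
      rw [← mul_pow, ← mul_pow]
      push_cast
      congr 1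
      rw [two_aN]
      ring
    rw [Nat.cast_mul, a2, hn, a1, prod_pfx' h, hf]
    rcases sgz_prod' (Q ∪ P) with h1 | h1 <;> rcases neg_one_pow_eq_or RR k with h2 | h2 <;>
      rw [h1, h2] <;> push_cast
    · right; ring
    · left; ring
    · left; ring
    · right; ring
  -- the function
  have e2 : (fun m => e7 m * (ψ₀ (nR m) * ∏ q ∈ Q ∪ P, qch q (nR m))) =
      fun m => χ m * (ψ m * ∏ i ∈ S7, sy (pf7 Q ϖ i) m) := by
    funext m
    have e3 : ∏ i ∈ ix Q P, sy (pf7 Q ϖ i) m = ∏ i ∈ ix Q P, sy (pfx Q ϖ i) m :=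
      Finset.prod_congr rfl (fun i hi => by rw [h.pf hi])
    rw [hS7, Finset.prod_insert h.ix7, pf7_o, sy_seven, e3, h.prod_sy, hl.spl]
    ring
  have hφ : Pe n (fun m => ψ m * ∏ i ∈ S7, sy (pf7 Q ϖ i) m) := by
    refine Pe.mul (hl.chb.per.mono (Dvd.intro _ rfl)) ?_
    exact (Pe.prod fun p _ => sy_per (pf7 Q ϖ p)).mono (Dvd.intro_left _ rfl)
  have hφm : ∀ x y, ψ (x * y) * ∏ i ∈ S7, sy (pf7 Q ϖ i) (x * y) =
      (ψ x * ∏ i ∈ S7, sy (pf7 Q ϖ i) x) * (ψ y * ∏ i ∈ S7, sy (pf7 Q ϖ i) y) := by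
    intro x y
    have h1 : ∏ i ∈ S7, sy (pf7 Q ϖ i) (x * y) =
        (∏ i ∈ S7, sy (pf7 Q ϖ i) x) * ∏ i ∈ S7, sy (pf7 Q ϖ i) y := by
      rw [← Finset.prod_mul_distrib]
      exact Finset.prod_congr rfl fun i hi => (hfx.pd i hi).mul _ _
    rw [hl.chb.mul, h1]
    ring
  have hcrt := Bv_crt (Ω := Ω) hL hf0 hn0 hcop hl.aper hφ hl.amul hφm
  have hsq : ∀ z : ℂ, (z = 1 ∨ z = -1) → v z = 1 := by
    rintro z (rfl | rfl)
    · exact map_one v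
    · rw [Valuation.map_neg, map_one]
  have hna : ¬ aR ∣ n := by
    intro h1
    have h2 : IsCoprime aR n := by
      have := hcop
      rw [hf] at this
      exact (IsCoprime.pow_left_iff (by have := hl.k2; omega)).1 this
    exact aR_nu (h2.isUnit_of_dvd' dvd_rfl h1)
  have v1 : v (χ n) = 1 := hsq _ (hl.asgn n hna)
  have v2 : v (ψ f) = 1 := by
    refine hsq _ (hl.chb.sgn f ?_)
    intro h1
    have h2 : IsCoprime f bN := cop_ab.pow_left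
    have h3 := h2.isUnit_of_dvd' h1 dvd_rfl
    rw [bN_eq] at h3
    exact bR_nu ((IsUnit.neg_iff _).1 h3)
  have v3 : v (∏ i ∈ S7, sy (pf7 Q ϖ i) f) = 1 := by
    rw [map_prod]
    refine Finset.prod_eq_one fun i hi => ?_
    refine hsq _ (sy_sgn ?_)
    intro h1
    rw [Ideal.mem_span_singleton] at h1
    have h2 : IsCoprime f (pf7 Q ϖ i) := (px_aR (hfx.pd i hi)).pow_left
    exact (hfx.pd i hi).pr.not_isUnit (h2.isUnit_of_dvd' h1 dvd_rfl)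
  have key : v (Bv Ω (f * n) (fun m => χ m * (ψ m * ∏ i ∈ S7, sy (pf7 Q ϖ i) m))) =
      v (Gb (Gx k χ Ω) Ω k ψ (pf7 Q ϖ) S7) := by
    rw [hcrt, map_mul, map_mul, v1, map_mul, v2, v3, one_mul, one_mul, one_mul]
    rfl
  rw [e2]
  rcases e1 with h1 | h1 <;> rw [h1]
  · exact key
  · rw [Bv_neg hL (mul_ne_zero hf0 hn0), Valuation.map_neg]
    exact key

/-- **the central values for the even discriminants** -/
theorem val_even' (h : Dt Q P ϖ) {ψ₀ : ℤ → ℂ} {k : ℕ} {χ ψ : RR → ℂ} (hl : Lc ψ₀ k χ ψ) :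
    ∃ F : ℂ → ℂ, Differentiable ℂ F ∧
    (∀ z : ℂ, 3 / 2 < z.re → HasProd (fun p : Nat.Primes =>
      (1 - bc p * ((ψ₀ ((p : ℕ) : ℤ) * ∏ q ∈ Q ∪ P, qch q (p : ℕ)) * ((p : ℕ) : ℂ) ^ (-z)) +
      ec p * ((ψ₀ ((p : ℕ) : ℤ) * ∏ q ∈ Q ∪ P, qch q (p : ℕ)) * ((p : ℕ) : ℂ) ^ (-z)) ^ 2)⁻¹)
      (F z)) ∧
    ∀ (Γ : Type) [LinearOrderedCommGroupWithZero Γ] (v : Valuation ℂ Γ) (L : PeriodPair) (Ω : ℂ),
      LD L Ω → v al < 1 →
      v 2 * v ((starRingEnd ℂ) (F 1) / Ω) * v (2 ^ k) =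
        v (Gb (Gx k χ Ω) Ω k ψ (pf7 Q ϖ) (insert (7, false) (ix Q P))) := by
  obtain ⟨F, g1, g2, g3⟩ := val_even hl.tp h.od
  refine ⟨F, g1, g2, fun Γ _ v L Ω hL hv => ?_⟩
  rw [g3 Γ v L Ω hL hv]
  exact v_Bv_even v hL.lat h hl

end

end Pool.Agent.L0h75.EV
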