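import Pool.Agent.L0h75.EV.Cr
import Pool.Agent.L0h1.EV.Pt

/-!
# The twists of the Eisenstein numbers at `𝔭`: explicit formulas and distribution relations
-/

set_option autoImplicit false
set_option linter.unusedSectionVars false

open Filter
open scoped Topology PeriodPair

namespace Pool.Agent.L0h75.EV

open Pool.Agent.Y698 Pool.Agent.Y698.SG Pool.Agent.L0h4.TW Pool.Agent.L0h23.ED Pool.Agent.L0h1.EV
open H667R3 Pool.Agent.W192.HK Pool.Agent.TH936.CM Pool.Agent.TH936.PU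

variable {L : PeriodPair} {Ω : ℂ}

lemma bij_e {n : ℕ} {e : RR →+* ZMod n} {f : RR} (hk : ∀ z, e z = 0 ↔ f ∣ z)
    (r : ZMod n → RR) (hr : ∀ m, e (r m) = m) :
    Function.Bijective (fun m => Ideal.Quotient.mk (sp f) (r m)) := by
  constructor
  · intro a b h
    have h1 : r a - r b ∈ sp f := (Ideal.Quotient.mk_eq_mk_iff_sub_mem _ _).1 h
    rwa [Ideal.mem_span_singleton, ← hk, map_sub, hr, hr, sub_eq_zero] at h1
  · intro q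
    obtain ⟨x, rfl⟩ := Ideal.Quotient.mk_surjective q
    refine ⟨e x, ?_⟩
    show Ideal.Quotient.mk (sp f) (r (e x)) = Ideal.Quotient.mk (sp f) x
    rw [Ideal.Quotient.mk_eq_mk_iff_sub_mem, Ideal.mem_span_singleton, ← hk, map_sub, hr, sub_self]

lemma Gx_term (hL : IsLat L RR Ω) {f : RR} (hf : f ≠ 0) {χ : RR → ℂ} (hχ : Pe f χ) (z : ℂ)
    (x y : RR) (h : x - y ∈ sp f) :
    χ x * Ev Ω (z + Ω * x / (f : ℂ)) = χ y * Ev Ω (z + Ω * y / (f : ℂ)) := by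
  rw [hχ _ _ h]
  congr 1
  apply Ev_per hL
  have h1 := (div_mem_iff hL hf (x - y)).2 h
  convert h1 using 1
  push_cast
  ring

lemma f_ne (k : ℕ) : (aR ^ k : RR) ≠ 0 := pow_ne_zero _ irr_aR.ne_zero

/-- the sum over representatives -/
lemma Gx_rep (hL : IsLat L RR Ω) {k n : ℕ} [NeZero n] {χ : RR → ℂ} (hχ : Pe (aR ^ k) χ)
    {e : RR →+* ZMod n} (hk : ∀ z, e z = 0 ↔ aR ^ k ∣ z) (r : ZMod n → RR)
    (hr : ∀ m, e (r m) = m) (z : ℂ) :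
    Gx k χ Ω z = ∑ m : ZMod n, χ (r m) * Ev Ω (z + Ω * (r m : RR) / ((aR ^ k : RR) : ℂ)) := by
  have f1 := fin_quot (f_ne k)
  let _ : Fintype (RR ⧸ sp (aR ^ k)) := Fintype.ofFinite _
  unfold Gx
  rw [finsum_eq_sum_of_fintype]
  exact sum_rep r (bij_e hk r hr)
    (fun a : RR => χ a * Ev Ω (z + Ω * a / ((aR ^ k : RR) : ℂ))) (Gx_term hL (f_ne k) hχ z)

/-- the twist by `χ₄` -/
theorem Gx_c4 (hL : IsLat L RR Ω) (z : ℂ) :
    Gx 2 xa4 Ω z = Ev Ω (z + t2 Ω) - Ev Ω (z - t2 Ω) := by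
  have h := Gx_rep hL (n := 4) lc_c4.aper (fun z => ea4_ker)
    (fun m : ZMod 4 => (((![0, 1, 2, -1] : Fin 4 → ℤ) m : ℤ) : RR))
    (by
      intro m
      rw [map_intCast]
      revert m
      decide) z
  rw [h]
  show ∑ m : Fin 4, xa4 (((![0, 1, 2, -1] : Fin 4 → ℤ) m : ℤ) : RR) *
    Ev Ω (z + Ω * (((((![0, 1, 2, -1] : Fin 4 → ℤ) m : ℤ) : RR) : RR) : ℂ) /
      ((aR ^ 2 : RR) : ℂ)) = _
  have hx : ∀ j : ℤ, xa4 ((j : ℤ) : RR) = ((ZMod.χ₄ ((j : ℤ) : ZMod 4) : ℤ) : ℂ) := by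
    intro j
    unfold xa4
    rw [map_intCast]
  rw [Fin.sum_univ_four, hx, hx, hx, hx]
  show ((ZMod.χ₄ ((0 : ℤ) : ZMod 4) : ℤ) : ℂ) * Ev Ω (z + Ω * (((0 : ℤ) : RR) : ℂ) / _) +
    ((ZMod.χ₄ ((1 : ℤ) : ZMod 4) : ℤ) : ℂ) * Ev Ω (z + Ω * (((1 : ℤ) : RR) : ℂ) / _) +
    ((ZMod.χ₄ ((2 : ℤ) : ZMod 4) : ℤ) : ℂ) * Ev Ω (z + Ω * (((2 : ℤ) : RR) : ℂ) / _) +
    ((ZMod.χ₄ ((-1 : ℤ) : ZMod 4) : ℤ) : ℂ) * Ev Ω (z + Ω * (((-1 : ℤ) : RR) : ℂ) / _) = _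
  rw [show ZMod.χ₄ ((0 : ℤ) : ZMod 4) = 0 by decide, show ZMod.χ₄ ((1 : ℤ) : ZMod 4) = 1 by decide,
    show ZMod.χ₄ ((2 : ℤ) : ZMod 4) = 0 by decide, show ZMod.χ₄ ((-1 : ℤ) : ZMod 4) = -1 by decide]
  have e1 : z + Ω * (((1 : ℤ) : RR) : ℂ) / ((aR ^ 2 : RR) : ℂ) = z + t2 Ω := by
    unfold t2
    push_cast
    rw [aR_coe, mul_one]
  have e2 : z + Ω * (((-1 : ℤ) : RR) : ℂ) / ((aR ^ 2 : RR) : ℂ) = z - t2 Ω := by
    unfold t2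
    push_cast
    rw [aR_coe]
    ring
  rw [e1, e2]
  push_cast
  ring

section
variable (χ : MulChar (ZMod 8) ℤ)

/-- the twists by the characters of conductor eight -/
theorem Gx_8 (hL : IsLat L RR Ω) {x : RR → ℂ} (hx : ∀ a : RR, x a = ((χ (ea8 a) : ℤ) : ℂ))
    (hp : Pe (aR ^ 3) x) (h0 : χ 0 = 0) (h2 : χ 2 = 0) (h4 : χ 4 = 0) (h6 : χ 6 = 0) (z : ℂ) :
    Gx 3 x Ω z = (χ 1 : ℤ) * Ev Ω (z + t3 Ω) + (χ 7 : ℤ) * Ev Ω (z - t3 Ω) +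
      (χ 3 : ℤ) * Ev Ω (z + 3 * t3 Ω) + (χ 5 : ℤ) * Ev Ω (z - 3 * t3 Ω) := by
  have h := Gx_rep hL (n := 8) hp (fun z => ea8_ker)
    (fun m : ZMod 8 => (((![0, 1, 2, 3, 4, -3, 6, -1] : Fin 8 → ℤ) m : ℤ) : RR))
    (by
      intro m
      rw [map_intCast]
      revert m
      decide) z
  rw [h]
  show ∑ m : Fin 8, x (((![0, 1, 2, 3, 4, -3, 6, -1] : Fin 8 → ℤ) m : ℤ) : RR) *
    Ev Ω (z + Ω * (((((![0, 1, 2, 3, 4, -3, 6, -1] : Fin 8 → ℤ) m : ℤ) : RR) : RR) : ℂ) /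
      ((aR ^ 3 : RR) : ℂ)) = _
  have hx' : ∀ j : ℤ, x ((j : ℤ) : RR) = ((χ ((j : ℤ) : ZMod 8) : ℤ) : ℂ) := by
    intro j
    rw [hx, map_intCast]
  rw [Fin.sum_univ_eight, hx', hx', hx', hx', hx', hx', hx', hx']
  show ((χ ((0 : ℤ) : ZMod 8) : ℤ) : ℂ) * Ev Ω (z + Ω * (((0 : ℤ) : RR) : ℂ) / _) +
    ((χ ((1 : ℤ) : ZMod 8) : ℤ) : ℂ) * Ev Ω (z + Ω * (((1 : ℤ) : RR) : ℂ) / _) +
    ((χ ((2 : ℤ) : ZMod 8) : ℤ) : ℂ) * Ev Ω (z + Ω * (((2 : ℤ) : RR) : ℂ) / _) +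
    ((χ ((3 : ℤ) : ZMod 8) : ℤ) : ℂ) * Ev Ω (z + Ω * (((3 : ℤ) : RR) : ℂ) / _) +
    ((χ ((4 : ℤ) : ZMod 8) : ℤ) : ℂ) * Ev Ω (z + Ω * (((4 : ℤ) : RR) : ℂ) / _) +
    ((χ ((-3 : ℤ) : ZMod 8) : ℤ) : ℂ) * Ev Ω (z + Ω * (((-3 : ℤ) : RR) : ℂ) / _) +
    ((χ ((6 : ℤ) : ZMod 8) : ℤ) : ℂ) * Ev Ω (z + Ω * (((6 : ℤ) : RR) : ℂ) / _) +
    ((χ ((-1 : ℤ) : ZMod 8) : ℤ) : ℂ) * Ev Ω (z + Ω * (((-1 : ℤ) : RR) : ℂ) / _) = _
  rw [show ((0 : ℤ) : ZMod 8) = 0 by decide, show ((1 : ℤ) : ZMod 8) = 1 by decide,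
    show ((2 : ℤ) : ZMod 8) = 2 by decide, show ((3 : ℤ) : ZMod 8) = 3 by decide,
    show ((4 : ℤ) : ZMod 8) = 4 by decide, show ((-3 : ℤ) : ZMod 8) = 5 by decide,
    show ((6 : ℤ) : ZMod 8) = 6 by decide, show ((-1 : ℤ) : ZMod 8) = 7 by decide, h0, h2, h4, h6]
  have e1 : z + Ω * (((1 : ℤ) : RR) : ℂ) / ((aR ^ 3 : RR) : ℂ) = z + t3 Ω := by
    unfold t3
    push_cast
    rw [aR_coe, mul_one]
  have e2 : z + Ω * (((-1 : ℤ) : RR) : ℂ) / ((aR ^ 3 : RR) : ℂ) = z - t3 Ω := by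
    unfold t3
    push_cast
    rw [aR_coe]
    ring
  have three : (((3 : ℤ) : RR) : ℂ) = 3 := by
    have h3 : ((3 : ℤ) : RR) = 1 + 1 + 1 := by norm_num
    rw [h3]
    push_cast
    norm_num
  have e3 : z + Ω * (((3 : ℤ) : RR) : ℂ) / ((aR ^ 3 : RR) : ℂ) = z + 3 * t3 Ω := by
    unfold t3
    rw [three]
    push_cast
    rw [aR_coe]
    ring
  have e4 : z + Ω * (((-3 : ℤ) : RR) : ℂ) / ((aR ^ 3 : RR) : ℂ) = z - 3 * t3 Ω := by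
    unfold t3
    have : (((-3 : ℤ) : RR) : ℂ) = -3 := by
      have h3 : ((-3 : ℤ) : RR) = -(1 + 1 + 1) := by norm_num
      rw [h3]
      push_cast
      norm_num
    rw [this]
    push_cast
    rw [aR_coe]
    ring
  rw [e1, e2, e3, e4]
  push_cast
  ring

end

/-- the twist by `χ₈` -/
theorem Gx_c8 (hL : IsLat L RR Ω) (z : ℂ) :
    Gx 3 xa8 Ω z = Ev Ω (z + t3 Ω) + Ev Ω (z - t3 Ω) - Ev Ω (z + 3 * t3 Ω) -
      Ev Ω (z - 3 * t3 Ω) := by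
  rw [Gx_8 ZMod.χ₈ hL (x := xa8) (fun a => rfl) lc_c8.aper (by decide) (by decide) (by decide) (by decide) z,
    show ZMod.χ₈ 1 = 1 by decide, show ZMod.χ₈ 3 = -1 by decide, show ZMod.χ₈ 5 = -1 by decide,
    show ZMod.χ₈ 7 = 1 by decide]
  push_cast
  ring

/-- the twist by `χ₋₈` -/
theorem Gx_c8' (hL : IsLat L RR Ω) (z : ℂ) :
    Gx 3 xa8' Ω z = Ev Ω (z + t3 Ω) - Ev Ω (z - t3 Ω) + Ev Ω (z + 3 * t3 Ω) -
      Ev Ω (z - 3 * t3 Ω) := by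
  rw [Gx_8 ZMod.χ₈' hL (x := xa8') (fun a => rfl) lc_c8'.aper (by decide) (by decide) (by decide) (by decide)
    z, show ZMod.χ₈' 1 = 1 by decide, show ZMod.χ₈' 3 = 1 by decide,
    show ZMod.χ₈' 5 = -1 by decide, show ZMod.χ₈' 7 = -1 by decide]
  push_cast
  ring

/-! ### the distribution relations -/

theorem Gx_per (hL : IsLat L RR Ω) {k : ℕ} {χ : RR → ℂ} {z w : ℂ} (h : w - z ∈ L.lattice) :
    Gx k χ Ω w = Gx k χ Ω z := by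
  unfold Gx
  refine finsum_congr fun a => ?_
  congr 1
  apply Ev_per hL
  convert h using 1
  ring

theorem Gx_par (hL : IsLat L RR Ω) {k : ℕ} {χ : RR → ℂ} (hχ : Pe (aR ^ k) χ)
    (hm : ∀ x y : RR, χ (x * y) = χ x * χ y) {z : ℂ} (hz : Tor L z) :
    Gx k χ Ω (-z) = -χ (-1) * Gx k χ Ω z := by
  have hf := f_ne k
  have f1 := fin_quot hf
  let _ : Fintype (RR ⧸ sp (aR ^ k)) := Fintype.ofFinite _
  unfold Gx
  rw [finsum_eq_sum_of_fintype, finsum_eq_sum_of_fintype]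
  have hb : Function.Bijective (fun a : RR ⧸ sp (aR ^ k) =>
      Ideal.Quotient.mk (sp (aR ^ k)) (-a.out)) := by
    have e1 : (fun a : RR ⧸ sp (aR ^ k) => Ideal.Quotient.mk (sp (aR ^ k)) (-a.out)) =
        fun a => -a := by
      funext a
      rw [map_neg, Ideal.Quotient.mk_out]
    rw [e1]
    exact (Equiv.neg _).bijective
  rw [sum_rep (fun a : RR ⧸ sp (aR ^ k) => -a.out) hb
    (fun a : RR => χ a * Ev Ω (-z + Ω * a / ((aR ^ k : RR) : ℂ))) (Gx_term hL hf hχ (-z)),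
    Finset.mul_sum]
  refine Finset.sum_congr rfl fun a _ => ?_
  have e1 : -z + Ω * ((-a.out : RR) : ℂ) / ((aR ^ k : RR) : ℂ) =
      -(z + Ω * a.out / ((aR ^ k : RR) : ℂ)) := by
    push_cast
    ring
  have e2 : χ (-a.out) = χ (-1) * χ a.out := by
    rw [← hm]
    congr 1
    ring
  rw [e1, Ev_neg hL (hz.add hL (Tor.of hL hf a.out)), e2]
  ring

theorem Gx_dist (hL : IsLat L RR Ω) {k : ℕ} {χ : RR → ℂ} (hχ : Pe (aR ^ k) χ)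
    (hm : ∀ x y : RR, χ (x * y) = χ x * χ y) {q : RR} (hq0 : q ≠ 0) (hq : IsCoprime q (aR ^ k))
    (hs : χ q ^ 2 = 1) [Fintype (RR ⧸ sp q)] {z : ℂ} (hz : Tor L z) :
    ∑ t : RR ⧸ sp q, Gx k χ Ω (z + Ω * t.out / q) = q * χ q * Gx k χ Ω (q * z) := by
  have hf := f_ne k
  have f1 := fin_quot hf
  let _ : Fintype (RR ⧸ sp (aR ^ k)) := Fintype.ofFinite _
  unfold Gx
  simp only [finsum_eq_sum_of_fintype]
  rw [Finset.sum_comm]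
  have hb : Function.Bijective (fun a : RR ⧸ sp (aR ^ k) =>
      Ideal.Quotient.mk (sp (aR ^ k)) (q * a.out)) := by
    rw [← Finite.injective_iff_bijective]
    intro a b h
    have h1 : q * a.out - q * b.out ∈ sp (aR ^ k) := (Ideal.Quotient.mk_eq_mk_iff_sub_mem _ _).1 h
    rw [← mul_sub, Ideal.mem_span_singleton] at h1
    have h2 := hq.symm.dvd_of_dvd_mul_left h1
    exact mk_eq (Ideal.mem_span_singleton.2 h2)
  rw [sum_rep (fun a : RR ⧸ sp (aR ^ k) => q * a.out) hb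
    (fun a : RR => χ a * Ev Ω (q * z + Ω * a / ((aR ^ k : RR) : ℂ))) (Gx_term hL hf hχ (q * z)),
    Finset.mul_sum]
  refine Finset.sum_congr rfl fun a _ => ?_
  have e1 : ∀ t : RR ⧸ sp q, z + Ω * t.out / q + Ω * a.out / ((aR ^ k : RR) : ℂ) =
      (z + Ω * a.out / ((aR ^ k : RR) : ℂ)) + Ω * t.out / q := by
    intro t
    ring
  simp only [e1]
  rw [← Finset.mul_sum, Ev_dist hL hq0 (hz.add hL (Tor.of hL hf a.out)), hm]
  have e2 : (q : ℂ) * (z + Ω * a.out / ((aR ^ k : RR) : ℂ)) =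
      q * z + Ω * ((q * a.out : RR) : ℂ) / ((aR ^ k : RR) : ℂ) := by
    push_cast
    ring
  rw [e2]
  linear_combination -(χ a.out * q * Ev Ω (q * z + Ω * ((q * a.out : RR) : ℂ) /
    ((aR ^ k : RR) : ℂ))) * hs

lemma n1_cop {q : RR} (h : N1 q) : IsCoprime q aR := by
  obtain ⟨u, hu⟩ := h
  exact ⟨1, -(aR * u), by rw [hu]; ring⟩

lemma n1_ne {q : RR} (h : N1 q) : q ≠ 0 := by
  rintro rfl
  exact aR_nu ((n1_cop h).isUnit_of_dvd' (dvd_zero _) dvd_rfl)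

lemma n1_not {q : RR} (h : N1 q) : ¬ aR ∣ q := fun h1 =>
  aR_nu ((n1_cop h).isUnit_of_dvd' h1 dvd_rfl)

/-- the distribution relations of the twists -/
theorem Gx_DF (hL : IsLat L RR Ω) {ψ₀ : ℤ → ℂ} {k : ℕ} {χ ψ : RR → ℂ} (hl : Lc ψ₀ k χ ψ) :
    DF L Ω (Gx k χ Ω) χ (-χ (-1)) := by
  refine ⟨fun z w h => Gx_per hL h, fun z hz => Gx_par hL hl.aper hl.amul hz, ?_⟩
  intro q hq _ z hz
  refine Gx_dist hL hl.aper hl.amul (n1_ne hq) (n1_cop hq).pow_right ?_ hz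
  rcases hl.asgn q (n1_not hq) with h | h <;> rw [h] <;> norm_num

lemma DF_congr {F : ℂ → ℂ} {ε ε' : RR → ℂ} {s : ℂ} (h : DF L Ω F ε s)
    (he : ∀ q, N1 q → ε q = ε' q) : DF L Ω F ε' s :=
  ⟨h.per, h.par, fun q hq i z hz => by rw [← he q hq]; exact h.dist q hq i z hz⟩

lemma xa4_n1 {q : RR} (h : N1 q) : xa4 q = 1 := by
  obtain ⟨u, hu⟩ := h
  have h1 : ea4 q = 1 := by
    rw [hu, map_add, map_one, map_mul, ea4_ker.2 dvd_rfl, zero_mul, add_zero]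
  unfold xa4
  rw [h1, show ZMod.χ₄ 1 = 1 by decide, Int.cast_one]

lemma ea8_n1 {q : RR} (h : N1 q) : ea8 q = 1 ∨ ea8 q = 5 := by
  obtain ⟨u, hu⟩ := h
  have h1 : ea8 q = 1 + 4 * ea8 u := by
    rw [hu, map_add, map_one, map_mul, map_pow, ea8_aR]
    congr 2
  have key : ∀ w : ZMod 8, 1 + 4 * w = 1 ∨ 1 + 4 * w = 5 := by decide
  rw [h1]
  exact key _

lemma xa8_n1 {q : RR} (h : N1 q) : xa8 q = sgl q := by
  unfold xa8 sgl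
  have h1 : aR ^ 3 ∣ q - 1 ↔ ea8 q = 1 := by
    rw [← ea8_ker, map_sub, map_one, sub_eq_zero]
  simp only [h1]
  rcases ea8_n1 h with h2 | h2 <;> rw [h2]
  · rw [if_pos rfl, show ZMod.χ₈ 1 = 1 by decide, Int.cast_one]
  · rw [if_neg (by decide), show ZMod.χ₈ 5 = -1 by decide]
    norm_num

lemma xa8'_n1 {q : RR} (h : N1 q) : xa8' q = sgl q := by
  rw [xa8'_eq, xa4_n1 h, one_mul, xa8_n1 h]

lemma xa4_neg : xa4 (-1) = -1 := by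
  unfold xa4
  rw [map_neg, map_one, show ZMod.χ₄ (-1) = -1 by decide]
  norm_num

lemma xb4_neg : xb4 (-1) = -1 := by
  unfold xb4
  rw [map_neg, map_one, show ZMod.χ₄ (-1) = -1 by decide]
  norm_num

lemma xa8_neg : xa8 (-1) = 1 := by
  unfold xa8
  rw [map_neg, map_one, show ZMod.χ₈ (-1) = 1 by decide]
  norm_num

lemma xb8_neg : xb8 (-1) = 1 := by
  unfold xb8
  rw [map_neg, map_one, show ZMod.χ₈ (-1) = 1 by decide]
  norm_num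

lemma xa8'_neg : xa8' (-1) = -1 := by
  unfold xa8'
  rw [map_neg, map_one, show ZMod.χ₈' (-1) = -1 by decide]
  norm_num

lemma xb8'_neg : xb8' (-1) = -1 := by
  unfold xb8'
  rw [map_neg, map_one, show ZMod.χ₈' (-1) = -1 by decide]
  norm_num

theorem DF_c4 (hL : IsLat L RR Ω) : DF L Ω (Gx 2 xa4 Ω) (fun _ => 1) 1 := by
  have h := Gx_DF hL lc_c4
  rw [xa4_neg, neg_neg] at h
  exact DF_congr h fun q hq => xa4_n1 hq

theorem DF_c8 (hL : IsLat L RR Ω) : DF L Ω (Gx 3 xa8 Ω) sgl (-1) := by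
  have h := Gx_DF hL lc_c8
  rw [xa8_neg] at h
  exact DF_congr h fun q hq => xa8_n1 hq

theorem DF_c8' (hL : IsLat L RR Ω) : DF L Ω (Gx 3 xa8' Ω) sgl 1 := by
  have h := Gx_DF hL lc_c8'
  rw [xa8'_neg, neg_neg] at h
  exact DF_congr h fun q hq => xa8'_n1 hq

end Pool.Agent.L0h75.EV
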