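import Pool.Agent.L0h4.TW.Val

/-!
# The quadratic characters of two-power conductor composed with the norm
-/

set_option autoImplicit false
set_option linter.unusedSectionVars false

open Filter
open scoped Topology PeriodPair

namespace Pool.Agent.L0h75.EV

open Pool.Agent.Y698 Pool.Agent.Y698.SG Pool.Agent.L0h4.TW
open H667R3 Pool.Agent.W192.HK Pool.Agent.TH936.CM Pool.Agent.TH936.PU

/-- the two-part of a quadratic character -/
structure Tp (ψ : ℤ → ℂ) (k : ℕ) : Prop where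
  pos : 1 ≤ k
  one : ψ 1 = 1
  mul : ∀ m n, ψ (m * n) = ψ m * ψ n
  zero : ∀ m, ψ m = 0 ↔ m % 2 = 0
  per : Per (2 ^ k) ψ
  conj : ∀ m, (starRingEnd ℂ) (ψ m) = ψ m
  sq : ψ 7 ^ 2 = 1
  wa : ∃ α : RR, α - 1 ∈ sp (2 ^ (k - 1) * aR) ∧ nR α % 2 = 1 ∧ ψ (nR α) ≠ 1
  wb : ∃ α : RR, α - 1 ∈ sp (2 ^ (k - 1) * bR) ∧ nR α % 2 = 1 ∧ ψ (nR α) ≠ 1

lemma odd_iff_cop {g : RR} : nR g % 2 = 1 ↔ IsCoprime g 2 := by
  constructor
  · intro h
    have h1 : (2 : ℤ) ∣ nR g - 1 := by omega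
    obtain ⟨m, hm⟩ := h1
    refine ⟨cj g, -(m : RR), ?_⟩
    have h2 := mul_cj g
    have h3 : ((nR g : ℤ) : RR) = 1 + 2 * (m : RR) := by
      have : nR g = 1 + 2 * m := by omega
      rw [this]
      push_cast
      ring
    rw [h3] at h2
    linear_combination h2
  · rintro ⟨a, b, hab⟩
    have h1 : a * g = 1 + (-b) * 2 := by linear_combination hab
    have h2 : cX (a * g) = 1 + cX (-b) * 2 ∧ cY (a * g) = cY (-b) * 2 := by
      apply cXY_of
      rw [h1]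
      push_cast
      rw [two_coe, (cXY_neg b).1, (cXY_neg b).2, co b]
      push_cast
      ring
    have h3 : nR (a * g) % 2 = 1 := by
      unfold nR
      rw [h2.1, h2.2]
      have e : (1 + cX (-b) * 2) ^ 2 + (1 + cX (-b) * 2) * (cY (-b) * 2) +
          2 * (cY (-b) * 2) ^ 2 = 1 + 2 * (2 * cX (-b) + 2 * cX (-b) ^ 2 + cY (-b) +
          2 * cX (-b) * cY (-b) + 4 * cY (-b) ^ 2) := by ring
      rw [e]
      omega
    rw [nR_mul, Int.mul_emod] at h3
    rcases Int.emod_two_eq_zero_or_one (nR g) with h4 | h4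
    · rw [h4] at h3
      simp at h3
    · exact h4

lemma mod_nR {g : RR} {n : ℕ} (h : g - 1 ∈ sp (n : RR)) : (n : ℤ) ∣ nR g - 1 := by
  rw [Ideal.mem_span_singleton'] at h
  obtain ⟨c, hc⟩ := h
  have h1 : g = 1 + c * (n : RR) := by linear_combination -hc
  have h2 : cX g = 1 + cX c * n ∧ cY g = cY c * n := by
    apply cXY_of
    rw [h1]
    push_cast
    rw [co c]
    ring
  unfold nR
  rw [h2.1, h2.2]
  exact ⟨2 * cX c + cX c ^ 2 * n + cY c + cX c * cY c * n + 2 * cY c ^ 2 * n, by ring⟩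

lemma irr_aR : Irreducible aR := irr_of_prime_norm (by rw [nR_aR]; norm_num)

lemma irr_bR : Irreducible bR := irr_of_prime_norm (by rw [nR_bR]; norm_num)

lemma two_pow_ne (k : ℕ) : ((2 ^ k : ℕ) : RR) ≠ 0 := by
  have : ((2 ^ k : ℕ)) ≠ 0 := by positivity
  exact_mod_cast this

/-- an ideal properly containing `(2 ^ k)` -/
lemma lt_two_pow {k : ℕ} (hk : 1 ≤ k) {q : Ideal RR} (h : sp ((2 ^ k : ℕ) : RR) < q) :
    2 ^ (k - 1) * aR ∈ q ∨ 2 ^ (k - 1) * bR ∈ q := by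
  obtain ⟨g, rfl⟩ := exists_gen q
  have hmem : ((2 ^ k : ℕ) : RR) ∈ sp g := h.le (Ideal.mem_span_singleton_self _)
  rw [Ideal.mem_span_singleton'] at hmem
  obtain ⟨c, hc⟩ := hmem
  have hc' : c * g = 2 * 2 ^ (k - 1) := by
    rw [hc]
    push_cast
    rw [← pow_succ']
    congr 1
    omega
  have hnu : ¬ IsUnit c := by
    intro hu
    apply h.not_ge
    rw [Ideal.span_singleton_le_span_singleton]
    obtain ⟨d, hd⟩ := isUnit_iff_exists_inv.1 hu
    exact ⟨d, by rw [← hc]; linear_combination -g * hd⟩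
  by_cases ha : aR ∣ c
  · right
    obtain ⟨d, hd⟩ := ha
    rw [Ideal.mem_span_singleton']
    refine ⟨d, ?_⟩
    have h2 : aR * (d * g) = aR * (2 ^ (k - 1) * bR) := by
      rw [hd] at hc'
      linear_combination hc' - 2 ^ (k - 1) * aR_mul_bR
    exact mul_left_cancel₀ irr_aR.ne_zero h2
  · by_cases hb : bR ∣ c
    · left
      obtain ⟨d, hd⟩ := hb
      rw [Ideal.mem_span_singleton']
      refine ⟨d, ?_⟩
      have h2 : bR * (d * g) = bR * (2 ^ (k - 1) * aR) := by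
        rw [hd] at hc'
        linear_combination hc' - 2 ^ (k - 1) * aR_mul_bR
      exact mul_left_cancel₀ irr_bR.ne_zero h2
    · exfalso
      have h1 := (irr_aR.coprime_iff_not_dvd).2 ha
      have h2 := (irr_bR.coprime_iff_not_dvd).2 hb
      have h3 : IsCoprime (2 : RR) c := by
        rw [← aR_mul_bR]
        exact h1.mul_left h2
      have h4 : IsCoprime ((2 : RR) ^ k) c := h3.pow_left
      have h5 : c ∣ (2 : RR) ^ k := ⟨g, by rw [hc]; push_cast; rfl⟩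
      exact hnu ((h4.of_isCoprime_of_dvd_left h5).isUnit_of_dvd' dvd_rfl dvd_rfl)

lemma Tp.hc {ψ : ℤ → ℂ} {k : ℕ} (h : Tp ψ k) :
    HC 0 (sp ((2 ^ k : ℕ) : RR)) (fun I => ψ (nI I)) := by
  have hcop : ∀ g : RR, IsCoprime (sp g) (sp ((2 ^ k : ℕ) : RR)) ↔ nR g % 2 = 1 := by
    intro g
    rw [Ideal.isCoprime_span_singleton_iff, odd_iff_cop]
    push_cast
    exact IsCoprime.pow_right_iff (by have := h.pos; omega)
  refine ⟨?_, ?_, ?_, ?_, ?_⟩
  · rw [Ne, Ideal.span_singleton_eq_bot]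
    exact two_pow_ne k
  · intro I J
    obtain ⟨g, rfl⟩ := exists_gen I
    obtain ⟨g', rfl⟩ := exists_gen J
    show ψ (nI _ : ℕ) = ψ (nI _ : ℕ) * ψ (nI _ : ℕ)
    rw [Ideal.span_singleton_mul_span_singleton, nI_sp', nI_sp', nI_sp', nR_mul, h.mul]
  · intro I
    obtain ⟨g, rfl⟩ := exists_gen I
    show ψ (nI _ : ℕ) = 0 ↔ _
    rw [nI_sp', h.zero, hcop, Ideal.span_singleton_eq_bot]
    constructor
    · intro h1
      right
      omega
    · rintro (rfl | h1)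
      · rw [nR_zero]
        rfl
      · omega
  · intro α _ hα
    show ψ (nI _ : ℕ) = _
    rw [nI_sp', pow_zero, h.per _ _ (mod_nR hα), h.one]
  · intro q' hq'
    have key : ∀ π : RR, 2 ^ (k - 1) * π ∈ q' → (∃ α : RR, α - 1 ∈ sp (2 ^ (k - 1) * π) ∧
        nR α % 2 = 1 ∧ ψ (nR α) ≠ 1) → ∃ α : RR, α ≠ 0 ∧ α - 1 ∈ q' ∧
        IsCoprime (sp α) (sp ((2 ^ k : ℕ) : RR)) ∧ ψ (nI (sp α) : ℕ) ≠ (α : ℂ) ^ 0 := by
      rintro π hπ ⟨α, h1, h2, h3⟩
      refine ⟨α, ?_, ?_, (hcop α).2 h2, ?_⟩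
      · rintro rfl
        rw [nR_zero] at h2
        omega
      · exact (Ideal.span_singleton_le_iff_mem _).2 hπ h1
      · rw [nI_sp', pow_zero]
        exact h3
    rcases lt_two_pow h.pos hq' with h1 | h1
    · exact key _ h1 h.wa
    · exact key _ h1 h.wb

/-! ### the three characters -/

/-- the character modulo four -/
noncomputable def c4 (m : ℤ) : ℂ := ((ZMod.χ₄ (m : ZMod 4) : ℤ) : ℂ)

/-- the even character modulo eight -/
noncomputable def c8 (m : ℤ) : ℂ := ((ZMod.χ₈ (m : ZMod 8) : ℤ) : ℂ)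

/-- the odd character modulo eight -/
noncomputable def c8' (m : ℤ) : ℂ := ((ZMod.χ₈' (m : ZMod 8) : ℤ) : ℂ)

lemma nR_of {g : RR} {x y : ℤ} (h : (g : ℂ) = x + y * al) : nR g = x ^ 2 + x * y + 2 * y ^ 2 := by
  unfold nR
  rw [(cXY_of h).1, (cXY_of h).2]

lemma nR_wa (n : ℤ) : nR (1 + (n : RR) * aR) = 1 + n + 2 * n ^ 2 := by
  rw [nR_of (x := 1) (y := n) (by push_cast; rw [aR_coe])]
  ring

lemma nR_wb (n : ℤ) : nR (1 + (n : RR) * bR) = 1 + n + 2 * n ^ 2 := by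
  rw [nR_of (x := 1 + n) (y := -n) (by push_cast; rw [bR_coe]; unfold bl; ring)]
  ring

lemma mod_two_of_four {m : ℤ} : m % 2 = 0 ↔ ((m : ZMod 4) = 0 ∨ (m : ZMod 4) = 2) := by
  constructor
  · intro h
    have h1 : (4 : ℤ) ∣ m ∨ (4 : ℤ) ∣ m - 2 := by omega
    rcases h1 with h1 | h1
    · left
      exact (ZMod.intCast_zmod_eq_zero_iff_dvd _ _).2 h1
    · right
      have := (ZMod.intCast_zmod_eq_zero_iff_dvd (m - 2) 4).2 h1
      push_cast at this
      linear_combination this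
  · rintro (h | h)
    · have := (ZMod.intCast_zmod_eq_zero_iff_dvd m 4).1 h
      omega
    · have h1 : ((m - 2 : ℤ) : ZMod 4) = 0 := by
        push_cast
        rw [h]
        rfl
      have := (ZMod.intCast_zmod_eq_zero_iff_dvd (m - 2) 4).1 h1
      omega

lemma mod_two_of_eight {m : ℤ} : m % 2 = 0 ↔
    ((m : ZMod 8) = 0 ∨ (m : ZMod 8) = 2 ∨ (m : ZMod 8) = 4 ∨ (m : ZMod 8) = 6) := by
  have key : ∀ a : ℤ, (8 : ℤ) ∣ m - a ↔ (m : ZMod 8) = (a : ZMod 8) := by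
    intro a
    rw [← sub_eq_zero, ← Int.cast_sub]
    exact (ZMod.intCast_zmod_eq_zero_iff_dvd _ 8).symm
  have k0 := key 0
  have k2 := key 2
  have k4 := key 4
  have k6 := key 6
  push_cast at k0 k2 k4 k6
  rw [← k0, ← k2, ← k4, ← k6]
  omega

lemma chi4_zero : ∀ x : ZMod 4, ZMod.χ₄ x = 0 ↔ (x = 0 ∨ x = 2) := by decide

lemma chi8_zero : ∀ x : ZMod 8, ZMod.χ₈ x = 0 ↔ (x = 0 ∨ x = 2 ∨ x = 4 ∨ x = 6) := by decide

lemma chi8'_zero : ∀ x : ZMod 8, ZMod.χ₈' x = 0 ↔ (x = 0 ∨ x = 2 ∨ x = 4 ∨ x = 6) := by decide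

lemma tp_c4 : Tp c4 2 := by
  refine ⟨by norm_num, ?_, ?_, ?_, ?_, ?_, ?_, ?_, ?_⟩
  · unfold c4
    rw [show ((1 : ℤ) : ZMod 4) = 1 by norm_num, map_one]
    norm_num
  · intro m n
    unfold c4
    rw [← Int.cast_mul, ← map_mul, ← Int.cast_mul]
  · intro m
    unfold c4
    rw [Int.cast_eq_zero, chi4_zero, mod_two_of_four]
  · intro a b hab
    unfold c4
    have h1 : ((a : ℤ) : ZMod 4) = ((b : ℤ) : ZMod 4) := by
      rw [← sub_eq_zero, ← Int.cast_sub]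
      exact (ZMod.intCast_zmod_eq_zero_iff_dvd _ 4).2 (by exact_mod_cast hab)
    rw [h1]
  · intro m
    unfold c4
    rw [map_intCast]
  · unfold c4
    have : ZMod.χ₄ ((7 : ℤ) : ZMod 4) = -1 := by decide
    rw [this]
    norm_num
  · refine ⟨1 + ((-2 : ℤ) : RR) * aR, ?_, ?_, ?_⟩
    · rw [Ideal.mem_span_singleton]
      exact ⟨-1, by push_cast; ring⟩
    · rw [nR_wa]
      norm_num
    · rw [nR_wa]
      unfold c4
      have : ZMod.χ₄ (((1 + -2 + 2 * (-2) ^ 2 : ℤ)) : ZMod 4) = -1 := by decide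
      rw [this]
      norm_num
  · refine ⟨1 + ((-2 : ℤ) : RR) * bR, ?_, ?_, ?_⟩
    · rw [Ideal.mem_span_singleton]
      exact ⟨-1, by push_cast; ring⟩
    · rw [nR_wb]
      norm_num
    · rw [nR_wb]
      unfold c4
      have : ZMod.χ₄ (((1 + -2 + 2 * (-2) ^ 2 : ℤ)) : ZMod 4) = -1 := by decide
      rw [this]
      norm_num

lemma tp_c8 : Tp c8 3 := by
  refine ⟨by norm_num, ?_, ?_, ?_, ?_, ?_, ?_, ?_, ?_⟩
  · unfold c8
    rw [show ((1 : ℤ) : ZMod 8) = 1 by norm_num, map_one]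
    norm_num
  · intro m n
    unfold c8
    rw [← Int.cast_mul, ← map_mul, ← Int.cast_mul]
  · intro m
    unfold c8
    rw [Int.cast_eq_zero, chi8_zero, mod_two_of_eight]
  · intro a b hab
    unfold c8
    have h1 : ((a : ℤ) : ZMod 8) = ((b : ℤ) : ZMod 8) := by
      rw [← sub_eq_zero, ← Int.cast_sub]
      exact (ZMod.intCast_zmod_eq_zero_iff_dvd _ 8).2 (by exact_mod_cast hab)
    rw [h1]
  · intro m
    unfold c8
    rw [map_intCast]
  · unfold c8
    have : ZMod.χ₈ ((7 : ℤ) : ZMod 8) = 1 := by decide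
    rw [this]
    norm_num
  · refine ⟨1 + ((4 : ℤ) : RR) * aR, ?_, ?_, ?_⟩
    · rw [Ideal.mem_span_singleton]
      exact ⟨1, by push_cast; ring⟩
    · rw [nR_wa]
      norm_num
    · rw [nR_wa]
      unfold c8
      have : ZMod.χ₈ (((1 + 4 + 2 * 4 ^ 2 : ℤ)) : ZMod 8) = -1 := by decide
      rw [this]
      norm_num
  · refine ⟨1 + ((4 : ℤ) : RR) * bR, ?_, ?_, ?_⟩
    · rw [Ideal.mem_span_singleton]
      exact ⟨1, by push_cast; ring⟩
    · rw [nR_wb]
      norm_num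
    · rw [nR_wb]
      unfold c8
      have : ZMod.χ₈ (((1 + 4 + 2 * 4 ^ 2 : ℤ)) : ZMod 8) = -1 := by decide
      rw [this]
      norm_num

lemma tp_c8' : Tp c8' 3 := by
  refine ⟨by norm_num, ?_, ?_, ?_, ?_, ?_, ?_, ?_, ?_⟩
  · unfold c8'
    rw [show ((1 : ℤ) : ZMod 8) = 1 by norm_num, map_one]
    norm_num
  · intro m n
    unfold c8'
    rw [← Int.cast_mul, ← map_mul, ← Int.cast_mul]
  · intro m
    unfold c8'
    rw [Int.cast_eq_zero, chi8'_zero, mod_two_of_eight]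
  · intro a b hab
    unfold c8'
    have h1 : ((a : ℤ) : ZMod 8) = ((b : ℤ) : ZMod 8) := by
      rw [← sub_eq_zero, ← Int.cast_sub]
      exact (ZMod.intCast_zmod_eq_zero_iff_dvd _ 8).2 (by exact_mod_cast hab)
    rw [h1]
  · intro m
    unfold c8'
    rw [map_intCast]
  · unfold c8'
    have : ZMod.χ₈' ((7 : ℤ) : ZMod 8) = -1 := by decide
    rw [this]
    norm_num
  · refine ⟨1 + ((4 : ℤ) : RR) * aR, ?_, ?_, ?_⟩
    · rw [Ideal.mem_span_singleton]
      exact ⟨1, by push_cast; ring⟩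
    · rw [nR_wa]
      norm_num
    · rw [nR_wa]
      unfold c8'
      have : ZMod.χ₈' (((1 + 4 + 2 * 4 ^ 2 : ℤ)) : ZMod 8) = -1 := by decide
      rw [this]
      norm_num
  · refine ⟨1 + ((4 : ℤ) : RR) * bR, ?_, ?_, ?_⟩
    · rw [Ideal.mem_span_singleton]
      exact ⟨1, by push_cast; ring⟩
    · rw [nR_wb]
      norm_num
    · rw [nR_wb]
      unfold c8'
      have : ZMod.χ₈' (((1 + 4 + 2 * 4 ^ 2 : ℤ)) : ZMod 8) = -1 := by decide
      rw [this]
      norm_num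

end Pool.Agent.L0h75.EV
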