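import Pool.Agent.L0h1.EV.Abs
import Pool.Agent.L0h75.EV.Hc

/-!
# The characters at the two primes above two

`𝔭 = (aR)`, `𝔭̄ = (bN) = (1 - aR)`; `ea4`, `ea8`: reduction modulo `𝔭 ^ 2`, `𝔭 ^ 3`; `eb4`, `eb8`:
reduction modulo `𝔭̄ ^ 2`, `𝔭̄ ^ 3`.
-/

set_option autoImplicit false
set_option linter.unusedSectionVars false

namespace Pool.Agent.L0h75.EV

open Pool.Agent.Y698 Pool.Agent.Y698.SG Pool.Agent.L0h4.TW Pool.Agent.L0h23.ED Pool.Agent.L0h1.EV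
open H667R3 Pool.Agent.W192.HK Pool.Agent.TH936.CM Pool.Agent.TH936.PU

/-- reduction modulo `𝔭 ^ 2` -/
noncomputable def ea4 : RR →+* ZMod 4 := ev (2 : ZMod 4) (by decide)
/-- reduction modulo `𝔭̄ ^ 2` -/
noncomputable def eb4 : RR →+* ZMod 4 := ev (3 : ZMod 4) (by decide)
/-- reduction modulo `𝔭 ^ 3` -/
noncomputable def ea8 : RR →+* ZMod 8 := ev (6 : ZMod 8) (by decide)
/-- reduction modulo `𝔭̄ ^ 3` -/
noncomputable def eb8 : RR →+* ZMod 8 := ev (3 : ZMod 8) (by decide)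

/-- `χ₄` at `𝔭` -/
noncomputable def xa4 (x : RR) : ℂ := ((ZMod.χ₄ (ea4 x) : ℤ) : ℂ)
/-- `χ₄` at `𝔭̄` -/
noncomputable def xb4 (x : RR) : ℂ := ((ZMod.χ₄ (eb4 x) : ℤ) : ℂ)
/-- `χ₈` at `𝔭` -/
noncomputable def xa8 (x : RR) : ℂ := ((ZMod.χ₈ (ea8 x) : ℤ) : ℂ)
/-- `χ₈` at `𝔭̄` -/
noncomputable def xb8 (x : RR) : ℂ := ((ZMod.χ₈ (eb8 x) : ℤ) : ℂ)
/-- `χ₋₈` at `𝔭` -/
noncomputable def xa8' (x : RR) : ℂ := ((ZMod.χ₈' (ea8 x) : ℤ) : ℂ)
/-- `χ₋₈` at `𝔭̄` -/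
noncomputable def xb8' (x : RR) : ℂ := ((ZMod.χ₈' (eb8 x) : ℤ) : ℂ)

/-- the decomposition of the two-part at the two primes above two -/
structure Lc (ψ₀ : ℤ → ℂ) (k : ℕ) (χ ψ : RR → ℂ) : Prop where
  tp : Tp ψ₀ k
  k2 : 2 ≤ k
  spl : ∀ x : RR, ψ₀ (nR x) = χ x * ψ x
  aper : Pe (aR ^ k) χ
  amul : ∀ x y : RR, χ (x * y) = χ x * χ y
  azero : ∀ x : RR, aR ∣ x → χ x = 0
  asgn : ∀ x : RR, ¬ aR ∣ x → χ x = 1 ∨ χ x = -1
  chb : Chb k ψ

/-! ### the kernels -/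

lemma ev_ker {n : ℕ} {a : ZMod n} (ha : a ^ 2 = a - 2) {A : ℤ} (hA : (A : ZMod n) = a) {π : RR}
    (h1 : π ∣ (n : RR)) (h2 : π ∣ aR - (A : RR)) (h3 : ev a ha π = 0) {z : RR} :
    ev a ha z = 0 ↔ π ∣ z := by
  constructor
  · intro h
    rw [ev_apply, ← hA] at h
    have h4 : ((cX z + cY z * A : ℤ) : ZMod n) = 0 := by
      push_cast
      exact h
    rw [ZMod.intCast_zmod_eq_zero_iff_dvd] at h4
    obtain ⟨m, hm⟩ := h4
    have e : z = ((cX z : ℤ) : RR) + ((cY z : ℤ) : RR) * aR := by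
      apply Subtype.ext
      push_cast
      rw [aR_coe]
      exact co z
    have hm' : ((cX z : ℤ) : RR) + ((cY z : ℤ) : RR) * (A : RR) = (n : RR) * (m : RR) := by
      exact_mod_cast congrArg (fun t : ℤ => (t : RR)) hm
    have e2 : z = (n : RR) * (m : RR) + ((cY z : ℤ) : RR) * (aR - (A : RR)) := by
      linear_combination e + hm'
    rw [e2]
    exact dvd_add (h1.mul_right _) (h2.mul_left _)
  · rintro ⟨c, rfl⟩
    rw [map_mul, h3, zero_mul]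

lemma ev_nR {n : ℕ} {a b : ZMod n} (ha : a ^ 2 = a - 2) (hb : b ^ 2 = b - 2) (h1 : a + b = 1)
    (h2 : a * b = 2) (x : RR) : ((nR x : ℤ) : ZMod n) = ev a ha x * ev b hb x := by
  rw [ev_apply, ev_apply]
  unfold nR
  push_cast
  linear_combination -((cX x : ZMod n) * (cY x : ZMod n)) * h1 - ((cY x : ZMod n)) ^ 2 * h2

lemma bb2 : (1 - aR) ^ 2 = -1 - aR := by linear_combination aR_sq
lemma bb3 : (1 - aR) ^ 3 = aR - 3 := by linear_combination (2 - aR) * aR_sq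
lemma aa3 : aR ^ 3 = -aR - 2 := by linear_combination (aR + 1) * aR_sq
lemma two_ab : (2 : RR) = aR * (1 - aR) := by linear_combination aR_sq
lemma bN_eq : bN = -(1 - aR) := by unfold bN; ring
lemma bN_sq : bN ^ 2 = (1 - aR) ^ 2 := by rw [bN_eq]; ring
lemma bN_cu : bN ^ 3 = -(1 - aR) ^ 3 := by rw [bN_eq]; ring
lemma two_aN : (2 : RR) = -(aR * bN) := by rw [bN_eq, mul_neg, neg_neg]; exact two_ab

lemma ea4_ker {z : RR} : ea4 z = 0 ↔ aR ^ 2 ∣ z := by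
  refine ev_ker (A := 2) _ (by decide) ?_ ?_ ?_
  · exact ⟨(1 - aR) ^ 2, by push_cast; linear_combination (2 + aR * (1 - aR)) * two_ab⟩
  · exact ⟨1, by push_cast; linear_combination -aR_sq⟩
  · rw [map_pow, ev_aR]; decide

lemma eb4_ker {z : RR} : eb4 z = 0 ↔ (1 - aR) ^ 2 ∣ z := by
  refine ev_ker (A := 3) _ (by decide) ?_ ?_ ?_
  · exact ⟨aR ^ 2, by push_cast; linear_combination (2 + aR * (1 - aR)) * two_ab⟩
  · exact ⟨1 - aR, by push_cast; linear_combination -bb3⟩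
  · rw [map_pow, map_sub, map_one, ev_aR]; decide

lemma ea8_ker {z : RR} : ea8 z = 0 ↔ aR ^ 3 ∣ z := by
  have h8 : (8 : RR) = aR ^ 3 * (1 - aR) ^ 3 := by
    have : (8 : RR) = 2 ^ 3 := by norm_num
    rw [this, two_ab]
    ring
  refine ev_ker (A := 6) _ (by decide) ?_ ?_ ?_
  · exact ⟨(1 - aR) ^ 3, by push_cast; exact h8⟩
  · exact ⟨-1 - (1 - aR) ^ 3, by push_cast; linear_combination -h8 + aa3⟩
  · rw [map_pow, ev_aR]; decide

lemma eb8_ker {z : RR} : eb8 z = 0 ↔ (1 - aR) ^ 3 ∣ z := by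
  have h8 : (8 : RR) = aR ^ 3 * (1 - aR) ^ 3 := by
    have : (8 : RR) = 2 ^ 3 := by norm_num
    rw [this, two_ab]
    ring
  refine ev_ker (A := 3) _ (by decide) ?_ ?_ ?_
  · exact ⟨aR ^ 3, by push_cast; linear_combination h8⟩
  · exact ⟨1, by push_cast; linear_combination -bb3⟩
  · rw [map_pow, map_sub, map_one, ev_aR]; decide

lemma ea4_aR : ea4 aR = 2 := ev_aR _ _
lemma ea8_aR : ea8 aR = 6 := ev_aR _ _
lemma eb4_aR : eb4 aR = 3 := ev_aR _ _
lemma eb8_aR : eb8 aR = 3 := ev_aR _ _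
lemma eb4_bN : eb4 bN = 2 := by unfold bN; rw [map_sub, map_one, eb4_aR]; decide
lemma eb8_bN : eb8 bN = 2 := by unfold bN; rw [map_sub, map_one, eb8_aR]; decide

lemma aR_not {z : RR} (h : ¬ aR ∣ z) : ea8 z = 1 ∨ ea8 z = 3 ∨ ea8 z = 5 ∨ ea8 z = 7 := by
  by_contra hcon
  have key : ∀ u : ZMod 8, ¬ (u = 1 ∨ u = 3 ∨ u = 5 ∨ u = 7) →
      ∃ m : ZMod 8, u = m * 6 := by decide
  obtain ⟨m, hm⟩ := key _ hcon
  obtain ⟨m', rfl⟩ := ZMod.intCast_surjective m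
  apply h
  have h1 : ea8 (z - (m' : RR) * aR) = 0 := by
    rw [map_sub, map_mul, map_intCast, ea8_aR, hm, sub_self]
  rw [ea8_ker] at h1
  have h2 : aR ∣ z - (m' : RR) * aR := (dvd_pow_self aR (by norm_num)).trans h1
  have h3 := dvd_add h2 (Dvd.intro_left (m' : RR) rfl : aR ∣ (m' : RR) * aR)
  rwa [sub_add_cancel] at h3

lemma aR_not4 {z : RR} (h : ¬ aR ∣ z) : ea4 z = 1 ∨ ea4 z = 3 := by
  by_contra hcon
  have key : ∀ u : ZMod 4, ¬ (u = 1 ∨ u = 3) → ∃ m : ZMod 4, u = m * 2 := by decide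
  obtain ⟨m, hm⟩ := key _ hcon
  obtain ⟨m', rfl⟩ := ZMod.intCast_surjective m
  apply h
  have h1 : ea4 (z - (m' : RR) * aR) = 0 := by
    rw [map_sub, map_mul, map_intCast, ea4_aR, hm, sub_self]
  rw [ea4_ker] at h1
  have h2 : aR ∣ z - (m' : RR) * aR := (dvd_pow_self aR (by norm_num)).trans h1
  have h3 := dvd_add h2 (Dvd.intro_left (m' : RR) rfl : aR ∣ (m' : RR) * aR)
  rwa [sub_add_cancel] at h3

lemma bN_dvd (z : RR) : bN ∣ z ↔ (1 - aR) ∣ z := by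
  rw [bN_eq]
  exact neg_dvd

lemma bN_not {z : RR} (h : ¬ bN ∣ z) : eb8 z = 1 ∨ eb8 z = 3 ∨ eb8 z = 5 ∨ eb8 z = 7 := by
  by_contra hcon
  have key : ∀ u : ZMod 8, ¬ (u = 1 ∨ u = 3 ∨ u = 5 ∨ u = 7) →
      ∃ m : ZMod 8, u = m * 2 := by decide
  obtain ⟨m, hm⟩ := key _ hcon
  obtain ⟨m', rfl⟩ := ZMod.intCast_surjective m
  apply h
  have h1 : eb8 (z - (m' : RR) * bN) = 0 := by
    rw [map_sub, map_mul, map_intCast, eb8_bN, hm, sub_self]
  rw [eb8_ker] at h1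
  have h2 : bN ∣ z - (m' : RR) * bN := by
    rw [bN_dvd]
    exact (dvd_pow_self (1 - aR) (by norm_num)).trans h1
  have h3 := dvd_add h2 (Dvd.intro_left (m' : RR) rfl : bN ∣ (m' : RR) * bN)
  rwa [sub_add_cancel] at h3

lemma bN_not4 {z : RR} (h : ¬ bN ∣ z) : eb4 z = 1 ∨ eb4 z = 3 := by
  by_contra hcon
  have key : ∀ u : ZMod 4, ¬ (u = 1 ∨ u = 3) → ∃ m : ZMod 4, u = m * 2 := by decide
  obtain ⟨m, hm⟩ := key _ hcon
  obtain ⟨m', rfl⟩ := ZMod.intCast_surjective m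
  apply h
  have h1 : eb4 (z - (m' : RR) * bN) = 0 := by
    rw [map_sub, map_mul, map_intCast, eb4_bN, hm, sub_self]
  rw [eb4_ker] at h1
  have h2 : bN ∣ z - (m' : RR) * bN := by
    rw [bN_dvd]
    exact (dvd_pow_self (1 - aR) (by norm_num)).trans h1
  have h3 := dvd_add h2 (Dvd.intro_left (m' : RR) rfl : bN ∣ (m' : RR) * bN)
  rwa [sub_add_cancel] at h3

lemma per_of {n : ℕ} {e : RR →+* ZMod n} {π : RR} (h : ∀ z, π ∣ z → e z = 0) {x y : RR}
    (hxy : x - y ∈ sp π) : e x = e y := by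
  rw [Ideal.mem_span_singleton] at hxy
  have := h _ hxy
  rwa [map_sub, sub_eq_zero] at this

lemma lc_c4 : Lc c4 2 xa4 xb4 := by
  refine ⟨tp_c4, le_rfl, ?_, ?_, ?_, ?_, ?_, ?_, ?_, ?_, ?_⟩
  · intro x
    unfold c4 xa4 xb4
    rw [ev_nR (a := 2) (b := 3) (by decide) (by decide) (by decide) (by decide), map_mul]
    push_cast
    rfl
  · intro x y hxy
    unfold xa4
    rw [per_of (fun z hz => ea4_ker.2 hz) hxy]
  · intro x y
    unfold xa4
    rw [map_mul, map_mul]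
    push_cast
    rfl
  · rintro x ⟨c, rfl⟩
    unfold xa4
    rw [map_mul, map_mul, ea4_aR, show ZMod.χ₄ 2 = 0 by decide, zero_mul, Int.cast_zero]
  · intro x hx
    unfold xa4
    rcases aR_not4 hx with h | h <;> rw [h]
    · left
      rw [show ZMod.χ₄ 1 = 1 by decide, Int.cast_one]
    · right
      rw [show ZMod.χ₄ 3 = -1 by decide, Int.cast_neg, Int.cast_one]
  · intro x y hxy
    unfold xb4
    rw [bN_sq] at hxy
    rw [per_of (fun z hz => eb4_ker.2 hz) hxy]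
  · intro x y
    unfold xb4
    rw [map_mul, map_mul]
    push_cast
    rfl
  · rintro x ⟨c, rfl⟩
    unfold xb4
    rw [map_mul, map_mul, eb4_bN, show ZMod.χ₄ 2 = 0 by decide, zero_mul, Int.cast_zero]
  · intro x hx
    unfold xb4
    rcases bN_not4 hx with h | h <;> rw [h]
    · left
      rw [show ZMod.χ₄ 1 = 1 by decide, Int.cast_one]
    · right
      rw [show ZMod.χ₄ 3 = -1 by decide, Int.cast_neg, Int.cast_one]

lemma bN_cu' : sp (bN ^ 3) = sp ((1 - aR) ^ 3) := by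
  rw [bN_cu]
  exact Ideal.span_singleton_neg _

lemma lc_c8 : Lc c8 3 xa8 xb8 := by
  refine ⟨tp_c8, by norm_num, ?_, ?_, ?_, ?_, ?_, ?_, ?_, ?_, ?_⟩
  · intro x
    unfold c8 xa8 xb8
    rw [ev_nR (a := 6) (b := 3) (by decide) (by decide) (by decide) (by decide), map_mul]
    push_cast
    rfl
  · intro x y hxy
    unfold xa8
    rw [per_of (fun z hz => ea8_ker.2 hz) hxy]
  · intro x y
    unfold xa8
    rw [map_mul, map_mul]
    push_cast
    rfl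
  · rintro x ⟨c, rfl⟩
    unfold xa8
    rw [map_mul, map_mul, ea8_aR, show ZMod.χ₈ 6 = 0 by decide, zero_mul, Int.cast_zero]
  · intro x hx
    unfold xa8
    rcases aR_not hx with h | h | h | h <;> rw [h]
    · left; rw [show ZMod.χ₈ 1 = 1 by decide, Int.cast_one]
    · right; rw [show ZMod.χ₈ 3 = -1 by decide, Int.cast_neg, Int.cast_one]
    · right; rw [show ZMod.χ₈ 5 = -1 by decide, Int.cast_neg, Int.cast_one]
    · left; rw [show ZMod.χ₈ 7 = 1 by decide, Int.cast_one]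
  · intro x y hxy
    unfold xb8
    rw [bN_cu'] at hxy
    rw [per_of (fun z hz => eb8_ker.2 hz) hxy]
  · intro x y
    unfold xb8
    rw [map_mul, map_mul]
    push_cast
    rfl
  · rintro x ⟨c, rfl⟩
    unfold xb8
    rw [map_mul, map_mul, eb8_bN, show ZMod.χ₈ 2 = 0 by decide, zero_mul, Int.cast_zero]
  · intro x hx
    unfold xb8
    rcases bN_not hx with h | h | h | h <;> rw [h]
    · left; rw [show ZMod.χ₈ 1 = 1 by decide, Int.cast_one]
    · right; rw [show ZMod.χ₈ 3 = -1 by decide, Int.cast_neg, Int.cast_one]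
    · right; rw [show ZMod.χ₈ 5 = -1 by decide, Int.cast_neg, Int.cast_one]
    · left; rw [show ZMod.χ₈ 7 = 1 by decide, Int.cast_one]

lemma lc_c8' : Lc c8' 3 xa8' xb8' := by
  refine ⟨tp_c8', by norm_num, ?_, ?_, ?_, ?_, ?_, ?_, ?_, ?_, ?_⟩
  · intro x
    unfold c8' xa8' xb8'
    rw [ev_nR (a := 6) (b := 3) (by decide) (by decide) (by decide) (by decide), map_mul]
    push_cast
    rfl
  · intro x y hxy
    unfold xa8'
    rw [per_of (fun z hz => ea8_ker.2 hz) hxy]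
  · intro x y
    unfold xa8'
    rw [map_mul, map_mul]
    push_cast
    rfl
  · rintro x ⟨c, rfl⟩
    unfold xa8'
    rw [map_mul, map_mul, ea8_aR, show ZMod.χ₈' 6 = 0 by decide, zero_mul, Int.cast_zero]
  · intro x hx
    unfold xa8'
    rcases aR_not hx with h | h | h | h <;> rw [h]
    · left; rw [show ZMod.χ₈' 1 = 1 by decide, Int.cast_one]
    · left; rw [show ZMod.χ₈' 3 = 1 by decide, Int.cast_one]
    · right; rw [show ZMod.χ₈' 5 = -1 by decide, Int.cast_neg, Int.cast_one]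
    · right; rw [show ZMod.χ₈' 7 = -1 by decide, Int.cast_neg, Int.cast_one]
  · intro x y hxy
    unfold xb8'
    rw [bN_cu'] at hxy
    rw [per_of (fun z hz => eb8_ker.2 hz) hxy]
  · intro x y
    unfold xb8'
    rw [map_mul, map_mul]
    push_cast
    rfl
  · rintro x ⟨c, rfl⟩
    unfold xb8'
    rw [map_mul, map_mul, eb8_bN, show ZMod.χ₈' 2 = 0 by decide, zero_mul, Int.cast_zero]
  · intro x hx
    unfold xb8'
    rcases bN_not hx with h | h | h | h <;> rw [h]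
    · left; rw [show ZMod.χ₈' 1 = 1 by decide, Int.cast_one]
    · left; rw [show ZMod.χ₈' 3 = 1 by decide, Int.cast_one]
    · right; rw [show ZMod.χ₈' 5 = -1 by decide, Int.cast_neg, Int.cast_one]
    · right; rw [show ZMod.χ₈' 7 = -1 by decide, Int.cast_neg, Int.cast_one]

/-! ### the values at the prime elements -/

lemma px_bN {x : RR} (h : PX x) : ¬ bN ∣ x := by
  intro h1
  have h2 := h.odd
  rw [two_aN] at h2
  have h3 : IsCoprime bN x := by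
    have := (IsCoprime.neg_left_iff _ _).1 h2
    exact this.of_mul_left_right
  have h4 := h3.isUnit_of_dvd' dvd_rfl h1
  rw [bN_eq] at h4
  exact bR_nu ((IsUnit.neg_iff _).1 h4)

lemma nt_xb4 {x : RR} (h : PX x) : lg (xb4 x) = nt x := by
  obtain ⟨u, hu⟩ := h.n1
  have h1 : ea4 x = 1 := by
    rw [hu, map_add, map_one, map_mul, ea4_ker.2 dvd_rfl, zero_mul, add_zero]
  have h2 : ((nR x : ℤ) : ZMod 4) = ea4 x * eb4 x :=
    ev_nR (a := 2) (b := 3) (by decide) (by decide) (by decide) (by decide) x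
  rw [h1, one_mul] at h2
  rw [nt_norm h.pr]
  rcases bN_not4 (px_bN h) with h3 | h3
  · have h4 : ¬ nR x % 4 = 3 := by
      intro h5
      rw [h3] at h2
      have h6 : ((nR x - 1 : ℤ) : ZMod 4) = 0 := by
        push_cast
        rw [h2, sub_self]
      have := (ZMod.intCast_zmod_eq_zero_iff_dvd _ 4).1 h6
      omega
    rw [if_neg h4]
    unfold xb4
    rw [h3, show ZMod.χ₄ 1 = 1 by decide, Int.cast_one, lg_one]
  · have h4 : nR x % 4 = 3 := by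
      rw [h3] at h2
      have h6 : ((nR x - 3 : ℤ) : ZMod 4) = 0 := by
        push_cast
        rw [h2, sub_self]
      have := (ZMod.intCast_zmod_eq_zero_iff_dvd _ 4).1 h6
      omega
    rw [if_pos h4]
    unfold xb4
    rw [h3, show ZMod.χ₄ 3 = -1 by decide, Int.cast_neg, Int.cast_one, lg_neg_one]

lemma lab_xb8 (x : RR) : lg (xb8 x) = lab x := by
  have h1 : (1 - aR) ^ 3 ∣ x - 1 ↔ eb8 x = 1 := by
    rw [← eb8_ker, map_sub, map_one, sub_eq_zero]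
  have h2 : (1 - aR) ^ 3 ∣ x + 1 ↔ eb8 x = -1 := by
    rw [← eb8_ker, map_add, map_one, add_eq_zero_iff_eq_neg]
  have key : ∀ u : ZMod 8, ZMod.χ₈ u = 1 ↔ (u = 1 ∨ u = -1) := by decide
  unfold lab xb8
  simp only [h1, h2]
  by_cases h : ZMod.χ₈ (eb8 x) = 1
  · rw [if_pos ((key _).1 h), h, Int.cast_one, lg_one]
  · rw [if_neg (fun h' => h ((key _).2 h'))]
    unfold lg
    rw [if_neg]
    intro h'
    exact h (by exact_mod_cast h')

lemma xb8'_eq (x : RR) : xb8' x = xb4 x * xb8 x := by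
  unfold xb8' xb4 xb8 eb8 eb4
  rw [ev_apply, ev_apply]
  have e1 : ((cX x : ℤ) : ZMod 8) + ((cY x : ℤ) : ZMod 8) * 3 = ((cX x + cY x * 3 : ℤ) : ZMod 8) := by
    push_cast; rfl
  have e2 : ((cX x : ℤ) : ZMod 4) + ((cY x : ℤ) : ZMod 4) * 3 = ((cX x + cY x * 3 : ℤ) : ZMod 4) := by
    push_cast; rfl
  rw [e1, e2, ZMod.χ₈'_int_eq_χ₄_mul_χ₈]
  push_cast
  rfl

lemma xa8'_eq (x : RR) : xa8' x = xa4 x * xa8 x := by
  unfold xa8' xa4 xa8 ea8 ea4
  rw [ev_apply, ev_apply]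
  have e1 : ((cX x : ℤ) : ZMod 8) + ((cY x : ℤ) : ZMod 8) * 6 = ((cX x + cY x * 6 : ℤ) : ZMod 8) := by
    push_cast; rfl
  have e2 : ((cX x : ℤ) : ZMod 4) + ((cY x : ℤ) : ZMod 4) * 2 = ((cX x + cY x * 6 : ℤ) : ZMod 4) := by
    push_cast
    rw [show (6 : ZMod 4) = 2 by decide]
  rw [e1, e2, ZMod.χ₈'_int_eq_χ₄_mul_χ₈]
  push_cast
  rfl

lemma lab_nt {x : RR} (h : PX x) : lg (xb8' x) = lab x + nt x := by
  rw [xb8'_eq, lg_mul (lc_c4.chb.sgn x (px_bN h)) (lc_c8.chb.sgn x (px_bN h)), nt_xb4 h, lab_xb8,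
    add_comm]

end Pool.Agent.L0h75.EV
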